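import Mathlib

-- part Pool.Agent.Lib.MP_c03fb1_al.Algebras
section

/-!
The three-dimensional algebra `R3 S` (basis `e, u, w`, nonzero products `u e = u + w`, `w u = w`)
over a commutative ring `S`, and the witness algebras `W K n`.
-/

namespace Pool.Agent.Lib.MP_c03fb1_al

universe u

open Polynomial

/-- The three-dimensional algebra, in coordinates. -/
@[ext] structure R3 (S : Type u) where
  a : S
  b : S
  c : S

namespace R3

variable {S : Type u}

/-- Coordinates. -/
def equivProd : R3 S ≃ S × S × S where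
  toFun x := (x.a, x.b, x.c)
  invFun p := ⟨p.1, p.2.1, p.2.2⟩
  left_inv _ := rfl
  right_inv _ := rfl

variable [CommRing S]

instance : AddCommGroup (R3 S) := equivProd.addCommGroup

@[simp] theorem add_a (x y : R3 S) : (x + y).a = x.a + y.a := rfl
@[simp] theorem add_b (x y : R3 S) : (x + y).b = x.b + y.b := rfl
@[simp] theorem add_c (x y : R3 S) : (x + y).c = x.c + y.c := rfl
@[simp] theorem zero_a : (0 : R3 S).a = 0 := rfl
@[simp] theorem zero_b : (0 : R3 S).b = 0 := rfl
@[simp] theorem zero_c : (0 : R3 S).c = 0 := rfl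

instance : Mul (R3 S) := ⟨fun x y => ⟨0, x.b * y.a, x.b * y.a + x.c * y.b⟩⟩

@[simp] theorem mul_a (x y : R3 S) : (x * y).a = 0 := rfl
@[simp] theorem mul_b (x y : R3 S) : (x * y).b = x.b * y.a := rfl
@[simp] theorem mul_c (x y : R3 S) : (x * y).c = x.b * y.a + x.c * y.b := rfl

instance : NonUnitalNonAssocRing (R3 S) where
  left_distrib x y z := by ext <;> simp <;> ring
  right_distrib x y z := by ext <;> simp <;> ring
  zero_mul x := by ext <;> simp
  mul_zero x := by ext <;> simp

variable {K : Type u} [Field K] [Algebra K S]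

instance : Module K (R3 S) := equivProd.module K

@[simp] theorem smul_a (k : K) (x : R3 S) : (k • x).a = k • x.a := rfl
@[simp] theorem smul_b (k : K) (x : R3 S) : (k • x).b = k • x.b := rfl
@[simp] theorem smul_c (k : K) (x : R3 S) : (k • x).c = k • x.c := rfl

instance : IsScalarTower K (R3 S) (R3 S) where
  smul_assoc k x y := by ext <;> simp

instance : SMulCommClass K (R3 S) (R3 S) where
  smul_comm k x y := by ext <;> simp

/-- An algebra map of coefficient rings induces an algebra map. -/
def mapHom {T : Type u} [CommRing T] [Algebra K T] (φ : S →ₐ[K] T) : R3 S →ₙₐ[K] R3 T where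
  toFun x := ⟨φ x.a, φ x.b, φ x.c⟩
  map_smul' k x := by ext <;> simp
  map_zero' := by ext <;> simp
  map_add' x y := by ext <;> simp
  map_mul' x y := by ext <;> simp

theorem finrank_eq (K : Type u) [Field K] : Module.finrank K (R3 K) = 3 := by
  have e : R3 K ≃ₗ[K] K × K × K := equivProd.linearEquiv K
  rw [e.finrank_eq]
  simp

end R3

/-- The witness algebra: basis `s, v, e, z, u_0, u_1, ...` with nonzero products
`v e = u_0`, `u_i v = u_(i+1)`, `s u_n = z`. -/
@[ext] structure W (K : Type u) [Field K] (n : ℕ) where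
  s : K
  v : K
  e : K
  z : K
  p : K[X]

namespace W

variable {K : Type u} [Field K] {n : ℕ}

/-- Coordinates. -/
def equivProd : W K n ≃ K × K × K × K × K[X] where
  toFun x := (x.s, x.v, x.e, x.z, x.p)
  invFun q := ⟨q.1, q.2.1, q.2.2.1, q.2.2.2.1, q.2.2.2.2⟩
  left_inv _ := rfl
  right_inv _ := rfl

noncomputable instance : AddCommGroup (W K n) := equivProd.addCommGroup

@[simp] theorem add_s (x y : W K n) : (x + y).s = x.s + y.s := rfl
@[simp] theorem add_v (x y : W K n) : (x + y).v = x.v + y.v := rfl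
@[simp] theorem add_e (x y : W K n) : (x + y).e = x.e + y.e := rfl
@[simp] theorem add_z (x y : W K n) : (x + y).z = x.z + y.z := rfl
@[simp] theorem add_p (x y : W K n) : (x + y).p = x.p + y.p := rfl
@[simp] theorem zero_s : (0 : W K n).s = 0 := rfl
@[simp] theorem zero_v : (0 : W K n).v = 0 := rfl
@[simp] theorem zero_e : (0 : W K n).e = 0 := rfl
@[simp] theorem zero_z : (0 : W K n).z = 0 := rfl
@[simp] theorem zero_p : (0 : W K n).p = 0 := rfl

noncomputable instance : Mul (W K n) :=
  ⟨fun x y => ⟨0, 0, 0, x.s * y.p.coeff n, C (x.v * y.e) + C y.v * X * x.p⟩⟩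

@[simp] theorem mul_s (x y : W K n) : (x * y).s = 0 := rfl
@[simp] theorem mul_v (x y : W K n) : (x * y).v = 0 := rfl
@[simp] theorem mul_e (x y : W K n) : (x * y).e = 0 := rfl
@[simp] theorem mul_z (x y : W K n) : (x * y).z = x.s * y.p.coeff n := rfl
@[simp] theorem mul_p (x y : W K n) : (x * y).p = C (x.v * y.e) + C y.v * X * x.p := rfl

noncomputable instance : NonUnitalNonAssocRing (W K n) where
  left_distrib x y z := by
    apply W.ext <;> simp <;> ring
  right_distrib x y z := by
    apply W.ext <;> simp <;> ring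
  zero_mul x := by apply W.ext <;> simp
  mul_zero x := by apply W.ext <;> simp

noncomputable instance : Module K (W K n) := equivProd.module K

@[simp] theorem smul_s (k : K) (x : W K n) : (k • x).s = k * x.s := rfl
@[simp] theorem smul_v (k : K) (x : W K n) : (k • x).v = k * x.v := rfl
@[simp] theorem smul_e (k : K) (x : W K n) : (k • x).e = k * x.e := rfl
@[simp] theorem smul_z (k : K) (x : W K n) : (k • x).z = k * x.z := rfl
@[simp] theorem smul_p (k : K) (x : W K n) : (k • x).p = k • x.p := rfl

instance : IsScalarTower K (W K n) (W K n) where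
  smul_assoc k x y := by
    apply W.ext <;> simp [smul_eq_C_mul] <;> ring

instance : SMulCommClass K (W K n) (W K n) where
  smul_comm k x y := by
    apply W.ext <;> simp [smul_eq_C_mul] <;> ring

end W

end Pool.Agent.Lib.MP_c03fb1_al
end

-- part Pool.Agent.Lib.MP_c03fb1_al.Proof
section

namespace Pool.Agent.Lib.MP_c03fb1_al

universe u

open Polynomial FreeNonUnitalNonAssocAlgebra TrivSqZeroExt

section general

variable {K : Type u} [Field K]

theorem lift_eq_sum {A : Type u} [NonUnitalNonAssocRing A] [Module K A] [IsScalarTower K A A]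
    [SMulCommClass K A A] (r : ℕ → A) (f : FreeNonUnitalNonAssocAlgebra K ℕ) :
    lift K r f = ∑ m ∈ f.coeff.support, f.coeff m • FreeMagma.lift r m := by
  rfl

theorem lift_single {A : Type u} [NonUnitalNonAssocRing A] [Module K A] [IsScalarTower K A A]
    [SMulCommClass K A A] (r : ℕ → A) (m : FreeMagma ℕ) :
    lift K r (MonoidAlgebra.single m (1 : K)) = FreeMagma.lift r m := by
  rw [lift_eq_sum]
  simp

theorem hom_lift {A B : Type u} [NonUnitalNonAssocRing A] [Module K A] [IsScalarTower K A A]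
    [SMulCommClass K A A] [NonUnitalNonAssocRing B] [Module K B] [IsScalarTower K B B]
    [SMulCommClass K B B] (φ : A →ₙₐ[K] B) (r : ℕ → A) (f : FreeNonUnitalNonAssocAlgebra K ℕ) :
    φ (lift K r f) = lift K (φ ∘ r) f := by
  have : φ.comp (lift K r) = lift K (φ ∘ r) := by
    apply hom_ext
    intro x
    simp
  exact DFunLike.congr_fun this f

/-- Over an infinite field, identities of `R3 K` hold in `R3 S` for each commutative algebra `S`. -/
theorem identity_ext [Infinite K] (f : FreeNonUnitalNonAssocAlgebra K ℕ)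
    (hf : ∀ r : ℕ → R3 K, lift K r f = 0) (S : Type u) [CommRing S] [Algebra K S]
    (r : ℕ → R3 S) : lift K r f = 0 := by
  let g : ℕ → R3 (MvPolynomial (ℕ × Fin 3) K) := fun i =>
    ⟨MvPolynomial.X (i, 0), MvPolynomial.X (i, 1), MvPolynomial.X (i, 2)⟩
  have hg : lift K g f = 0 := by
    have key : ∀ x : ℕ × Fin 3 → K,
        R3.mapHom (MvPolynomial.aeval x : MvPolynomial (ℕ × Fin 3) K →ₐ[K] K) (lift K g f) = 0 := by
      intro x
      rw [hom_lift]
      exact hf _
    apply R3.ext
    · apply MvPolynomial.funext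
      intro x
      have := congrArg R3.a (key x)
      simpa [R3.mapHom, MvPolynomial.aeval_eq_eval] using this
    · apply MvPolynomial.funext
      intro x
      have := congrArg R3.b (key x)
      simpa [R3.mapHom, MvPolynomial.aeval_eq_eval] using this
    · apply MvPolynomial.funext
      intro x
      have := congrArg R3.c (key x)
      simpa [R3.mapHom, MvPolynomial.aeval_eq_eval] using this
  let x : ℕ × Fin 3 → S := fun q => ![(r q.1).a, (r q.1).b, (r q.1).c] q.2
  have h2 := hom_lift
    (R3.mapHom (MvPolynomial.aeval x : MvPolynomial (ℕ × Fin 3) K →ₐ[K] S)) g f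
  rw [hg, map_zero] at h2
  have h3 : (R3.mapHom (MvPolynomial.aeval x : MvPolynomial (ℕ × Fin 3) K →ₐ[K] S)) ∘ g = r := by
    funext i
    apply R3.ext <;> simp [R3.mapHom, g, x]
  rw [h3] at h2
  exact h2.symm

end general

section witness

variable {K : Type u} [Field K] {n : ℕ}

/-- The `s`-coordinate, as an algebra map. -/
def theta0 : W K n →ₙₐ[K] R3 K where
  toFun x := ⟨0, 0, x.s⟩
  map_smul' k x := by ext <;> simp
  map_zero' := by ext <;> simp
  map_add' x y := by ext <;> simp
  map_mul' x y := by ext <;> simp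

/-- The coordinates `v, e, p`, as an algebra map. -/
noncomputable def theta1 : W K n →ₙₐ[K] R3 (DualNumber K[X]) where
  toFun x := ⟨inr (C x.e), inl (C x.v * X) + inr (C (x.p.coeff 0) * X), inr (X * x.p)⟩
  map_smul' k x := by
    apply R3.ext <;> apply TrivSqZeroExt.ext <;> simp [smul_eq_C_mul] <;> ring
  map_zero' := by apply R3.ext <;> simp
  map_add' x y := by
    apply R3.ext <;> apply TrivSqZeroExt.ext <;> simp <;> ring
  map_mul' x y := by
    apply R3.ext <;> apply TrivSqZeroExt.ext <;> simp <;> ring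

/-- The linear map used for the `z`-coordinate. -/
noncomputable def theta2 (x : W K n) : R3 (DualNumber K[X]) :=
  ⟨inl (C x.v * X), inr x.p, inl (C x.s) + inr (x.p + C x.z * X ^ n)⟩

theorem inv_monomial (r : ℕ → W K n) (m : FreeMagma ℕ) :
    let x := FreeMagma.lift r m
    let y := FreeMagma.lift (theta2 ∘ r) m
    y.a = inl (C x.v * X) ∧ y.b.fst = 0 ∧
      (∀ k, m.length ≤ k + 1 → y.b.snd.coeff k = x.p.coeff k) ∧ y.c.fst = C x.s ∧
      (m.length ≤ n + 2 → (y.c.snd - y.b.snd).coeff n = x.z) := by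
  induction m using FreeMagma.recOnMul with
  | ih1 i =>
    simp [theta2]
  | ih2 m₁ m₂ h₁ h₂ =>
    obtain ⟨a1, b1, p1, c1, z1⟩ := h₁
    obtain ⟨a2, b2, p2, c2, z2⟩ := h₂
    have l1 := m₁.length_pos
    have l2 := m₂.length_pos
    simp only [map_mul, FreeMagma.length] at *
    refine ⟨by simp, by simp [b1], ?_, by simp [b1, b2], ?_⟩
    · intro k hk
      obtain ⟨j, rfl⟩ : ∃ j, k = j + 1 := ⟨k - 1, by omega⟩
      have := p1 j (by omega)
      simp only [R3.mul_b, W.mul_p, a2, snd_mul, fst_inl, snd_inl, b1, coeff_add,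
        coeff_C_succ, smul_zero, zero_add]
      rw [mul_assoc, coeff_C_mul, coeff_X_mul, ← this, op_smul_eq_mul, ← mul_assoc,
        coeff_mul_X, coeff_mul_C, mul_comm]
    · intro hk
      have := p2 n (by omega)
      simp only [R3.mul_b, R3.mul_c, snd_add, add_sub_cancel_left, W.mul_z, snd_mul, c1, b2,
        smul_eq_mul, MulOpposite.op_zero, zero_smul, add_zero, coeff_C_mul, this]

/-- Identities of `R3 K` of degree at most `n + 2` hold in `W K n`. -/
theorem witness_identity [Infinite K] (f : FreeNonUnitalNonAssocAlgebra K ℕ)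
    (hf : ∀ r : ℕ → R3 K, lift K r f = 0) (hdeg : ∀ m ∈ f.coeff.support, m.length ≤ n + 2)
    (r : ℕ → W K n) : lift K r f = 0 := by
  have h0 : theta0 (lift K r f) = 0 := by
    rw [hom_lift]; exact hf _
  have h1 : theta1 (lift K r f) = 0 := by
    rw [hom_lift]; exact identity_ext f hf _ _
  have h2 : lift K (theta2 ∘ r) f = 0 := identity_ext f hf _ _
  let ψ₁ : W K n →ₗ[K] K :=
    { toFun := fun x => x.z
      map_add' := fun x y => rfl
      map_smul' := fun k x => rfl }
  let ψ₂ : R3 (DualNumber K[X]) →ₗ[K] K :=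
    { toFun := fun y => (y.c.snd - y.b.snd).coeff n
      map_add' := fun x y => by simp; ring
      map_smul' := fun k x => by simp; ring }
  have hz : ψ₁ (lift K r f) = ψ₂ (lift K (theta2 ∘ r) f) := by
    rw [lift_eq_sum, lift_eq_sum, map_sum, map_sum]
    apply Finset.sum_congr rfl
    intro m hm
    rw [map_smul, map_smul]
    congr 1
    exact ((inv_monomial r m).2.2.2.2 (hdeg m hm)).symm
  rw [h2, map_zero] at hz
  apply W.ext
  · simpa [theta0] using congrArg R3.c h0
  · simpa [theta1] using congrArg (fun y => y.b.fst) h1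
  · simpa [theta1] using congrArg (fun y => y.a.snd) h1
  · exact hz
  · simpa [theta1] using congrArg (fun y => y.c.snd) h1

/-- Right multiplication `k` times by the variable `x_1`. -/
def rpow (m : FreeMagma ℕ) : ℕ → FreeMagma ℕ
  | 0 => m
  | k + 1 => rpow m k * FreeMagma.of 1

/-- The identity `x_0 (x_1 x_2 x_1 ^ (N+1)) - x_0 (x_1 x_1 x_2 x_1 ^ N)`, left normed. -/
noncomputable def bad (K : Type u) [Field K] (N : ℕ) : FreeNonUnitalNonAssocAlgebra K ℕ :=
  MonoidAlgebra.single
      (FreeMagma.of 0 * rpow (FreeMagma.of 1 * FreeMagma.of 2) (N + 1)) (1 : K) -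
    MonoidAlgebra.single
      (FreeMagma.of 0 * rpow (FreeMagma.of 1 * FreeMagma.of 1 * FreeMagma.of 2) N) (1 : K)

theorem rpow_R3 (r : ℕ → R3 K) (m : FreeMagma ℕ) (hm : (FreeMagma.lift r m).a = 0) (k : ℕ) :
    (FreeMagma.lift r (rpow m k)).a = 0 ∧
      (FreeMagma.lift r (rpow m k)).b = (FreeMagma.lift r m).b * (r 1).a ^ k := by
  induction k with
  | zero => simp [rpow, hm]
  | succ k ih => simp [rpow, ih.2, pow_succ, mul_assoc]

theorem bad_R3 (N : ℕ) (r : ℕ → R3 K) : lift K r (bad K N) = 0 := by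
  rw [bad, map_sub, lift_single, lift_single, sub_eq_zero]
  obtain ⟨h1, h2⟩ := rpow_R3 r (FreeMagma.of 1 * FreeMagma.of 2) (by simp) (N + 1)
  obtain ⟨h3, h4⟩ := rpow_R3 r (FreeMagma.of 1 * FreeMagma.of 1 * FreeMagma.of 2) (by simp) N
  apply R3.ext
  · simp
  · simp [h1, h3]
  · simp only [map_mul, R3.mul_c, h1, h2, h3, h4, FreeMagma.lift_of, R3.mul_b]
    ring

/-- The substitution `x_0 = s`, `x_1 = v`, `x_2 = e`. -/
noncomputable def subst (K : Type u) [Field K] (n : ℕ) : ℕ → W K n
  | 0 => ⟨1, 0, 0, 0, 0⟩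
  | 1 => ⟨0, 1, 0, 0, 0⟩
  | _ => ⟨0, 0, 1, 0, 0⟩

theorem rpow_W (m : FreeMagma ℕ) (k : ℕ) :
    (FreeMagma.lift (subst K n) (rpow m k)).p = X ^ k * (FreeMagma.lift (subst K n) m).p := by
  induction k with
  | zero => simp [rpow]
  | succ k ih => simp [rpow, ih, subst, pow_succ]; ring

theorem bad_W (N : ℕ) : lift K (subst K (N + 1)) (bad K N) ≠ 0 := by
  rw [bad, map_sub, lift_single, lift_single, sub_ne_zero]
  intro h
  have := congrArg W.z h
  simp [rpow_W, subst] at this

end witness

end Pool.Agent.Lib.MP_c03fb1_al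
end
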